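import Pool.Agent.Helper35.PQF.St

/-! Module F1 of project PQF: first theorem. -/

set_option autoImplicit false

open Filter Topology Matrix Set MeasureTheory
open scoped ENNReal ComplexOrder

namespace Pool.Agent.Helper24.PM

open Pool.Agent.Helper35.PM

theorem zt_mem (t : ℝ) : zt t ∈ Metric.ball (0 : ℂ) 1 := by
  rw [mem_ball_zero_iff]
  unfold zt
  rw [Complex.norm_real, Real.norm_eq_abs]
  exact Real.abs_tanh_lt_one _

theorem zt_zero : zt 0 = 0 := by
  unfold zt
  simp

theorem contDiff_tanh : ContDiff ℝ ((⊤ : ℕ∞) : WithTop ℕ∞) Real.tanh := by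
  have h : Real.tanh = fun x => Real.sinh x / Real.cosh x := by
    funext x
    exact Real.tanh_eq_sinh_div_cosh x
  rw [h]
  exact Real.contDiff_sinh.div Real.contDiff_cosh (fun x => (Real.cosh_pos x).ne')

theorem contDiff_zt : ContDiff ℝ ((⊤ : ℕ∞) : WithTop ℕ∞) zt := by
  have h : zt = fun t => Complex.ofRealCLM (Real.tanh (t / 2)) := rfl
  rw [h]
  exact Complex.ofRealCLM.contDiff.comp (contDiff_tanh.comp (contDiff_id.div_const 2))

theorem smooth_path {Γ : Type} [Group Γ] (f : ℂ → Γ →* SL) (hf : HolDisc f) (a b : ℝ) :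
    SmoothPath (fun t => f (zt t)) a b := by
  refine ⟨fun γ i j => ?_, fun t _ => hf.2 _ (zt_mem t)⟩
  have h1 : ContDiffOn ℂ ((⊤ : ℕ∞) : WithTop ℕ∞) (fun z : ℂ => (f z γ : Mat) i j)
      (Metric.ball 0 1) := (hf.1 γ i j).contDiffOn Metric.isOpen_ball
  have h2 : ContDiffOn ℝ ((⊤ : ℕ∞) : WithTop ℕ∞) (fun z : ℂ => (f z γ : Mat) i j)
      (Metric.ball 0 1) := h1.restrict_scalars ℝ
  exact h2.comp contDiff_zt.contDiffOn (fun t _ => zt_mem t)

theorem f1 (qf : St_QF) (po : St_PO) (ge1 : St_GE1) (ge2 : St_GE2) (cs : St_CS) : St_F1 := by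
  intro g hg U hU f hf L η hL hη
  have hF : ∀ z ∈ Metric.ball (0 : ℂ) 1, Facts (f z) := fun z hz => qf g hg (f z) (hf.2 z hz)
  have hP := po (SurfaceGroup g) f U hf.1 hF (fun z hz => hU (f z) (hf.2 z hz))
  have hlen : LengthLE U (fun t => f (zt t)) 0 L
      (ENNReal.ofReal (Real.sqrt (η / 2 * L * (L + 2)))) := by
    rcases hL.eq_or_lt with h0 | hL0
    · refine ⟨fun _ => 0, measurable_const, fun t ht => ?_, by simp⟩
      rw [← h0] at ht
      exact absurd ht (by simp)
    · have hη0 : 0 ≤ η := by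
        have h1 := hη 0 ⟨le_rfl, hL⟩
        have h2 := (hF _ (zt_mem 0)).2.2.1
        linarith
      obtain ⟨g1, g2, g3, g4⟩ := ge1 _ _ hP
      obtain ⟨q, hq, hq1, hq2⟩ := ge2 (fun t => 1 / ent (f (zt t)))
        (fun t s => J (U (f (zt t))) (f (zt t)) (f (zt s))) L η hL0
        (fun t => (g4 t t).2) (fun t s => (g4 s t).1) g1 g2 g3
        (fun t ht => by
          show 2 - 1 / (1 / ent (f (zt t))) ≤ η
          rw [one_div_one_div]
          exact hη t ht)
      obtain ⟨q₁, hm, hs, hi⟩ := cs q (fun _ => 1) 0 L hq measurable_const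
        (fun _ _ => ⟨one_ne_zero, ENNReal.one_ne_top⟩)
      refine ⟨q₁, hm, fun t ht => ?_, hi.trans ?_⟩
      · rw [hs]
        exact hq1 t ht
      · have e1 : (∫⁻ t in Ioo 0 L, (fun _ : ℝ => (1 : ℝ≥0∞)) t * q t) =
            ∫⁻ t in Ioo 0 L, q t := by simp
        have e2 : (∫⁻ t in Ioo 0 L, ((fun _ : ℝ => (1 : ℝ≥0∞)) t)⁻¹) = ENNReal.ofReal L := by
          simp
        rw [e1, e2]
        calc (∫⁻ t in Ioo 0 L, q t) ^ (1 / 2 : ℝ) * ENNReal.ofReal L ^ (1 / 2 : ℝ)
            ≤ ENNReal.ofReal (η / 2 * (L + 2)) ^ (1 / 2 : ℝ) *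
              ENNReal.ofReal L ^ (1 / 2 : ℝ) := by
                gcongr
          _ = (ENNReal.ofReal (η / 2 * (L + 2)) * ENNReal.ofReal L) ^ (1 / 2 : ℝ) := by
                rw [ENNReal.mul_rpow_of_nonneg _ _ (by norm_num)]
          _ = ENNReal.ofReal (η / 2 * L * (L + 2)) ^ (1 / 2 : ℝ) := by
                rw [← ENNReal.ofReal_mul (by positivity)]
                congr 2
                ring
          _ = ENNReal.ofReal (Real.sqrt (η / 2 * L * (L + 2))) := by
                rw [ENNReal.ofReal_rpow_of_nonneg (by positivity) (by norm_num),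
                  Real.sqrt_eq_rpow]
          _ ≤ _ := le_rfl
  refine ⟨hlen, sInf_le ?_⟩
  have h := PressureLE.path (U := U) (fun t => f (zt t)) 0 L _ hL (smooth_path f hf 0 L) hlen
  simp only [zt_zero] at h
  exact h

end Pool.Agent.Helper24.PM
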