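import Pool.Agent.Helper35.PQF.St

/-! Module F2 of project PQF: second theorem, energy. -/

set_option autoImplicit false

open Filter Topology Matrix Set MeasureTheory
open scoped ENNReal ComplexOrder

namespace Pool.Agent.Helper24.PM

open Pool.Agent.Helper35.PM

theorem norm_pt (x θ : ℝ) : ‖pt x θ‖ = Real.exp x := by
  unfold pt
  rw [Complex.norm_exp]
  simp

theorem pt_mem {x : ℝ} (hx : x < 0) (θ : ℝ) : pt x θ ∈ Metric.ball (0 : ℂ) 1 := by
  rw [mem_ball_zero_iff, norm_pt]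
  exact Real.exp_lt_one_iff.mpr hx

theorem f2 (qf : St_QF) (po : St_PO) (ra6 : St_RA6) : St_F2 := by
  intro g hg U hU f hf
  have hF : ∀ z ∈ Metric.ball (0 : ℂ) 1, Facts (f z) := fun z hz => qf g hg (f z) (hf.2 z hz)
  have hP := po (SurfaceGroup g) f U hf.1 hF (fun z hz => hU (f z) (hf.2 z hz))
  obtain ⟨q, hq, hq1, hq2⟩ := ra6 _ _ hP
  refine ⟨q, hq, fun θ x hx => hq1 θ x hx, fun y hy => (hq2 y hy).trans (le_of_eq ?_)⟩
  refine lintegral_congr fun θ => ?_
  have he : 0 < ent (f (pt (-y) θ)) := (hF _ (pt_mem (by linarith) θ)).2.1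
  congr 1
  field_simp

end Pool.Agent.Helper24.PM
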