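import Pool.Agent.Helper35.PQF.St

/-! Module PO of project PQF: the frame. -/

set_option autoImplicit false

open Filter Topology Matrix Set MeasureTheory
open scoped ENNReal ComplexOrder

namespace Pool.Agent.Helper24.PM

open Pool.Agent.Helper35.PM

theorem po (av1 : St_AV1) (av2 : St_AV2) (jg : St_JG) (ul : St_UL) : St_PO := by
  intro Γ _ f U hol hF hA
  refine ⟨fun z hz => ?_, fun p hp => ?_⟩
  · exact one_div_le_one_div_of_le (hF z hz).2.1 (hF z hz).2.2.1
  · have hG := av2 Γ f hol hF p hp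
    choose Gt hG1 hG2 using hG
    obtain ⟨hlim1, hle1⟩ := av1 Γ (f p) (hF p hp)
    obtain ⟨G₀, hd, hlim⟩ := ul (U (f p)) Gt p 1 hp hG1 (fun T z hz => (hG2 T z hz).2)
      (Eventually.of_forall fun T => by
        rw [(hG2 T p hp).1]
        exact hle1 T)
    have hlim' : ∀ z ∈ Metric.ball (0 : ℂ) 1,
        Tendsto (avg (f p) (f z)) (U (f p) : Filter ℝ) (𝓝 (G₀ z).re) := by
      intro z hz
      refine (hlim z hz).congr fun T => ?_
      exact (hG2 T z hz).1
    have hp0 : 0 < ent (f p) := (hF p hp).2.1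
    refine ⟨fun z => G₀ z / (ent (f p) : ℂ), hd.div_const _, fun z hz => ?_, ?_⟩
    · have hz0 : 0 < ent (f z) := (hF z hz).2.1
      have hin : inter (U (f p)) (f p) (f z) = (G₀ z).re := (hlim' z hz).limUnder_eq
      have hre : (G₀ z / (ent (f p) : ℂ)).re = (G₀ z).re / ent (f p) := Complex.div_ofReal_re _ _
      have hj := jg Γ (f p) (f z) (U (f p)) _ (hF p hp) (hF z hz) (hA p hp) (hlim' z hz)
      constructor
      · show (G₀ z / (ent (f p) : ℂ)).re = J (U (f p)) (f p) (f z) * (1 / ent (f z))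
        rw [hre, Pool.Agent.Helper35.PM.J, hin]
        field_simp
      · show 1 / ent (f z) ≤ (G₀ z / (ent (f p) : ℂ)).re
        rw [hre, div_le_div_iff₀ hz0 hp0, one_mul]
        exact hj
    · show (G₀ p / (ent (f p) : ℂ)).re = 1 / ent (f p)
      have h1 : (G₀ p).re = 1 := tendsto_nhds_unique (hlim' p hp) (hlim1.mono_left (hA p hp).1)
      rw [Complex.div_ofReal_re, h1]

end Pool.Agent.Helper24.PM
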